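import Pool.Agent.H11.NZ.Targets

/-!
# Module RS of the board nz_modules: the relative socle of a perfect section
-/

set_option autoImplicit false

namespace Pool.Agent.H13.NZ.RS

open Pool.Agent.H11.NZ

lemma comm_le_self {L : Type} [Group L] (H : Subgroup L) : ⁅H, H⁆ ≤ H :=
  Subgroup.commutator_le.2 fun _ ha _ hb =>
    H.mul_mem (H.mul_mem (H.mul_mem ha hb) (H.inv_mem ha)) (H.inv_mem hb)

/-- the join of the perfect subgroups of `P` -/
def core {L : Type} [Group L] (P : Subgroup L) : Subgroup L :=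
  sSup {H : Subgroup L | H ≤ P ∧ ⁅H, H⁆ = H}

lemma core_le {L : Type} [Group L] (P : Subgroup L) : core P ≤ P :=
  sSup_le fun _ h => h.1

lemma core_perfect {L : Type} [Group L] (P : Subgroup L) : ⁅core P, core P⁆ = core P := by
  refine le_antisymm (comm_le_self _) (sSup_le ?_)
  intro H hH
  calc H = ⁅H, H⁆ := hH.2.symm
    _ ≤ ⁅core P, core P⁆ := Subgroup.commutator_mono (le_sSup hH) (le_sSup hH)

lemma core_map {L Q : Type} [Group L] [Finite L] [Group Q] (f : L →* Q)
    (hf : Function.Surjective f) (T' : Subgroup Q) (hT : ⁅T', T'⁆ = T') :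
    (core (T'.comap f)).map f = T' := by
  classical
  refine le_antisymm (Subgroup.map_le_iff_le_comap.2 (core_le _)) ?_
  have hex : ∃ k : ℕ, ∃ H : Subgroup L, H.map f = T' ∧ Nat.card H = k :=
    ⟨_, T'.comap f, Subgroup.map_comap_eq_self_of_surjective hf _, rfl⟩
  obtain ⟨H, hH, hk⟩ := Nat.find_spec hex
  have hperf : ⁅H, H⁆ = H := by
    have h1 : (⁅H, H⁆ : Subgroup L).map f = T' := by
      rw [Subgroup.map_commutator, hH, hT]
    have h2 := Nat.find_min' hex ⟨⁅H, H⁆, h1, rfl⟩
    rw [← hk] at h2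
    exact Subgroup.eq_of_le_of_card_ge (comm_le_self H) h2
  rw [← hH]
  refine Subgroup.map_mono (le_sSup ⟨?_, hperf⟩)
  rw [← Subgroup.map_le_iff_le_comap]

lemma core_conj {L : Type} [Group L] (P P' : Subgroup L) (y : L)
    (h : ∀ x ∈ P, y * x * y⁻¹ ∈ P') : ∀ x ∈ core P, y * x * y⁻¹ ∈ core P' := by
  have h1 : core P ≤ (core P').comap (MulAut.conj y).toMonoidHom := by
    refine sSup_le ?_
    intro H hH
    rw [← Subgroup.map_le_iff_le_comap]
    refine le_sSup ⟨?_, ?_⟩
    · rw [Subgroup.map_le_iff_le_comap]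
      intro x hx
      exact h x (hH.1 hx)
    · rw [← Subgroup.map_commutator, hH.2]
  intro x hx
  exact h1 hx

theorem pf_rs : T_NSS → T_RS := by
  intro hN L _ _ M Z hMn hZn hZM hperf hmin
  have := hMn
  have := hZn
  set π : L →* L ⧸ Z := QuotientGroup.mk' Z with hπ
  have hsurj : Function.Surjective π := QuotientGroup.mk'_surjective Z
  have hker : π.ker = Z := QuotientGroup.ker_mk' Z
  have hcm : ∀ A : Subgroup L, (A.map π).comap π = A ⊔ Z := by
    intro A
    rw [Subgroup.comap_map_eq, hker]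
  have hMcm : (M.map π).comap π = M := by
    rw [hcm, sup_eq_left]
    exact hZM.le
  obtain ⟨I, iF, iD, iA, T', hne, htr, hsim, hnc, hcom, hconj, hsup⟩ := hN (L ⧸ Z) (M.map π)
    (hMn.map π hsurj) (by
      intro h
      rw [Subgroup.map_eq_bot_iff, hker] at h
      exact absurd h (not_le_of_gt hZM)) (by
      rw [← Subgroup.map_commutator, hperf]) (by
      intro M' hM' hle
      have h1 := hmin (M'.comap π) (hM'.comap π) (by
        intro z hz
        have : π z = 1 := by rw [← MonoidHom.mem_ker, hker]; exact hz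
        rw [Subgroup.mem_comap, this]
        exact M'.one_mem) (by
        rw [← hMcm]
        exact Subgroup.comap_mono hle)
      have h2 : (M'.comap π).map π = M' := Subgroup.map_comap_eq_self_of_surjective hsurj _
      rcases h1 with h1 | h1
      · left
        rw [← h2, h1, Subgroup.map_eq_bot_iff, hker]
      · right
        rw [← h2, h1])
  let _ : MulAction L I := MulAction.compHom I π
  have hsm : ∀ (y : L) (i : I), y • i = π y • i := fun _ _ => rfl
  have hT'perf : ∀ i, ⁅T' i, T' i⁆ = T' i := by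
    intro i
    have := hsim i
    obtain ⟨x, hx, y, hy, hxy⟩ := hnc i
    have hn : ((⁅T' i, T' i⁆ : Subgroup (L ⧸ Z)).subgroupOf (T' i)).Normal := by
      constructor
      rintro ⟨a, ha⟩ hna ⟨g, hg⟩
      rw [Subgroup.mem_subgroupOf] at hna ⊢
      have e : g * a * g⁻¹ = (g * a * g⁻¹ * a⁻¹) * a := by group
      change g * a * g⁻¹ ∈ _
      rw [e]
      exact Subgroup.mul_mem _ (Subgroup.commutator_mem_commutator hg ha) hna
    rcases hn.eq_bot_or_eq_top with h | h
    · exfalso
      apply hxy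
      have h1 : x * y * x⁻¹ * y⁻¹ ∈ (⁅T' i, T' i⁆ : Subgroup (L ⧸ Z)) :=
        Subgroup.commutator_mem_commutator hx hy
      have h2 : (⟨x * y * x⁻¹ * y⁻¹, comm_le_self _ h1⟩ : T' i) ∈
          (⁅T' i, T' i⁆ : Subgroup (L ⧸ Z)).subgroupOf (T' i) := by
        rw [Subgroup.mem_subgroupOf]
        exact h1
      rw [h, Subgroup.mem_bot, Subtype.ext_iff] at h2
      have h3 : x * y * x⁻¹ * y⁻¹ = 1 := h2
      rw [mul_inv_eq_one, mul_inv_eq_iff_eq_mul] at h3
      exact h3
    · rw [Subgroup.subgroupOf_eq_top] at h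
      exact le_antisymm (comm_le_self _) h
  let T : I → Subgroup L := fun i => core ((T' i).comap π)
  have hTmap : ∀ i, (T i).map π = T' i := fun i => core_map π hsurj (T' i) (hT'perf i)
  have hTmem : ∀ i, ∀ x ∈ T i, π x ∈ T' i := fun i x hx =>
    Subgroup.mem_comap.1 (core_le ((T' i).comap π) hx)
  refine ⟨I, iF, iD, inferInstance, T, hne, ?_, ?_, ?_, ?_, ?_, ?_, ?_, ?_⟩
  · constructor
    intro i j
    obtain ⟨g, hg⟩ := htr.exists_smul_eq i j
    obtain ⟨y, rfl⟩ := hsurj g
    exact ⟨y, hg⟩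
  · intro i
    calc T i ≤ (T' i).comap π := core_le _
      _ ≤ (M.map π).comap π := Subgroup.comap_mono (by rw [← hsup]; exact le_iSup T' i)
      _ = M := hMcm
  · intro i
    exact core_perfect _
  · intro i hle
    obtain ⟨x, hx, y, hy, hxy⟩ := hnc i
    rw [← hker, ← Subgroup.map_eq_bot_iff, hTmap] at hle
    rw [hle, Subgroup.mem_bot] at hx
    apply hxy
    rw [hx, one_mul, mul_one]
  · intro i A hA hnorm
    have := hsim i
    have hAT : A.map π ≤ T' i := by
      rw [← hTmap i]
      exact Subgroup.map_mono hA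
    have hn : ((A.map π).subgroupOf (T' i)).Normal := by
      constructor
      rintro ⟨a, ha⟩ hna ⟨g, hg⟩
      rw [Subgroup.mem_subgroupOf] at hna ⊢
      rw [← hTmap i] at hg
      obtain ⟨t, ht, htg⟩ := hg
      obtain ⟨b, hb, hba⟩ := hna
      change g * a * g⁻¹ ∈ A.map π
      refine ⟨t * b * t⁻¹, hnorm t ht b hb, ?_⟩
      change π b = a at hba
      change π t = g at htg
      rw [map_mul, map_mul, map_inv, hba, htg]
    rcases hn.eq_bot_or_eq_top with h | h
    · left
      rw [Subgroup.subgroupOf_eq_bot] at h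
      have h1 : A.map π = ⊥ := by
        rw [eq_bot_iff]
        exact (disjoint_iff_inf_le.1 h) |>.trans' (le_inf le_rfl hAT)
      rw [Subgroup.map_eq_bot_iff, hker] at h1
      exact h1
    · right
      rw [Subgroup.subgroupOf_eq_top] at h
      rw [← hcm A, ← Subgroup.map_le_iff_le_comap, hTmap]
      exact h
  · intro i j hij x hx y hy
    have h1 := hcom i j hij _ (hTmem i x hx) _ (hTmem j y hy)
    rw [← hker, MonoidHom.mem_ker, map_mul, map_mul, map_mul, map_inv, map_inv, h1]
    group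
  · intro y i x hx
    refine core_conj _ _ y ?_ x hx
    intro z hz
    rw [Subgroup.mem_comap] at hz ⊢
    rw [map_mul, map_mul, map_inv]
    exact hconj (π y) i _ hz
  · rw [← hcm, ← Subgroup.map_le_iff_le_comap, Subgroup.map_iSup, ← hsup]
    exact iSup_mono fun i => (hTmap i).ge

end Pool.Agent.H13.NZ.RS
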